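import Pool.Agent.Y738.PE.Stm2

/-!
# Project PE: cut torus vectors
-/

open scoped BigOperators ComplexConjugate Classical

noncomputable section

namespace Pool.Agent.Y155.PE

open Pool.Agent.Y738.PE

/-- `Fin m` and `ZMod m` -/
def eF (m : ℕ) [NeZero m] : Fin m ≃ ZMod m where
  toFun i := ((i : ℕ) : ZMod m)
  invFun x := ⟨x.val, ZMod.val_lt x⟩
  left_inv i := by
    apply Fin.ext
    exact ZMod.val_natCast_of_lt i.2
  right_inv x := ZMod.natCast_zmod_val x

/-- block configurations and configurations of the torus -/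
def gE (d m : ℕ) [NeZero m] : BConf d m ≃ Conf d m :=
  Equiv.arrowCongr ((eF m).prodCongr (eF m)) (Equiv.refl _)

theorem gE_apply {d m : ℕ} [NeZero m] (σ : BConf d m) : gE d m σ = glue σ := rfl

theorem val1 {m a b : ℕ} [NeZero m] (h : a + b < m) :
    ((a : ZMod m) + (b : ZMod m)).val = a + b := by
  rw [← Nat.cast_add, ZMod.val_natCast_of_lt h]

theorem val2 {m a r : ℕ} [NeZero m] (h : a + r ≤ m) (w : ZMod m) (hw : (w - (a : ZMod m)).val < r) :
    w.val = a + (w - (a : ZMod m)).val := by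
  have e : w = (a : ZMod m) + (((w - (a : ZMod m)).val : ℕ) : ZMod m) := by
    rw [ZMod.natCast_zmod_val, add_sub_cancel]
  have h1 := val1 (m := m) (a := a) (b := (w - (a : ZMod m)).val) (by omega)
  rw [← e] at h1
  exact h1

theorem val3 {m a r : ℕ} [NeZero m] (h : a + r ≤ m) (w : ZMod m) (h1 : a ≤ w.val)
    (h2 : w.val < a + r) : (w - (a : ZMod m)).val = w.val - a := by
  have e : w - (a : ZMod m) = ((w.val - a : ℕ) : ZMod m) := by
    rw [Nat.cast_sub h1, ZMod.natCast_zmod_val]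
  rw [e, ZMod.val_natCast_of_lt (by omega)]

theorem val4 {m a r : ℕ} [NeZero m] (h : a + r ≤ m) (w : ZMod m) :
    (w - (a : ZMod m)).val < r ↔ a ≤ w.val ∧ w.val < a + r := by
  constructor
  · intro hw
    have := val2 h w hw
    omega
  · rintro ⟨h1, h2⟩
    rw [val3 h w h1 h2]
    omega

/-- **Expectations in a torus vector, cut open.** -/
theorem cut : Pool.Agent.Y738.PE.StmCut := by
  intro d m r _ Ψ p h B
  constructor
  · exact (gE d m).sum_comp (fun s => ‖Ψ s‖ ^ 2)
  · intro hr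
    have e1 : ∀ σ : BConf d m, box r (glue σ) (((p.1 : ℕ) : ZMod m), ((p.2 : ℕ) : ZMod m)) =
        subBox σ p h := by
      intro σ
      funext q
      have h1 := val1 (m := m) (a := p.1) (b := q.1) (by have := q.1.2; omega)
      have h2 := val1 (m := m) (a := p.2) (b := q.2) (by have := q.2.2; omega)
      simp only [box, glue, subBox, h1, h2]
    have e2 : ∀ (σ : BConf d m) (τ : BConf d r),
        put (glue σ) (((p.1 : ℕ) : ZMod m), ((p.2 : ℕ) : ZMod m)) τ = glue (subPut σ p τ) := by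
      intro σ τ
      funext w
      have i1 := val4 h.1 w.1
      have i2 := val4 h.2 w.2
      by_cases hc : (w.1 - ((p.1 : ℕ) : ZMod m)).val < r ∧ (w.2 - ((p.2 : ℕ) : ZMod m)).val < r
      · have hc' : (p.1 ≤ w.1.val ∧ w.1.val < p.1 + r) ∧ (p.2 ≤ w.2.val ∧ w.2.val < p.2 + r) :=
          ⟨i1.1 hc.1, i2.1 hc.2⟩
        simp only [put, glue, subPut]
        rw [dif_pos hc, dif_pos hc']
        have j1 := val3 h.1 w.1 hc'.1.1 hc'.1.2
        have j2 := val3 h.2 w.2 hc'.2.1 hc'.2.2
        simp only [j1, j2]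
      · have hc' : ¬ ((p.1 ≤ w.1.val ∧ w.1.val < p.1 + r) ∧
            (p.2 ≤ w.2.val ∧ w.2.val < p.2 + r)) := fun hcc => hc ⟨i1.2 hcc.1, i2.2 hcc.2⟩
        simp only [put, glue, subPut]
        rw [dif_neg hc, dif_neg hc']
    unfold expecBlock expec
    rw [← (gE d m).sum_comp]
    refine Finset.sum_congr rfl fun σ _ => Finset.sum_congr rfl fun τ _ => ?_
    rw [gE_apply, e1, e2]

end Pool.Agent.Y155.PE
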